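import Mathlib
import Pool.Agent.H.MP_b9b9c0_an.C

set_option autoImplicit false

namespace Pool.Agent.H.MP_c027d2_an

open Filter Topology Metric Complex Set MeasureTheory
open Pool.Agent.H.MP_b9b9c0_an
open scoped ComplexConjugate InnerProduct

theorem ineq {μ κ p T a : ℝ} (μ0 : 0 < μ) (h2 : κ < 2 * μ) (p0 : 0 ≤ p) (hT : 3 / 2 ≤ μ * T)
    (h : a ∈ Icc μ κ) : (a + p) * (1 - Real.exp (-((2 * a - κ) * T))) / (2 * a - κ) ≤
      (μ + p) * (1 - Real.exp (-((2 * μ - κ) * T))) / (2 * μ - κ) := by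
  have T0 : 0 < T := by nlinarith
  have d : ∀ x ∈ Icc μ κ, HasDerivAt (fun a => (a + p) * (1 - Real.exp (-((2 * a - κ) * T))) / (2 * a - κ))
      _ x := fun x hx => (((hasDerivAt_id' x).add_const p).mul (((((hasDerivAt_id' x).const_mul 2).sub_const
        κ).mul_const T).neg.exp.const_sub 1)).div (((hasDerivAt_id' x).const_mul 2).sub_const κ)
        (by linarith [hx.1])
  refine antitoneOn_of_deriv_nonpos (convex_Icc μ κ) (fun x hx => (d x hx).continuousAt.continuousWithinAt)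
    (fun x hx => (d x (interior_subset hx)).differentiableAt.differentiableWithinAt) (fun x hx => ?_)
    ⟨le_rfl, h.1.trans h.2⟩ h h.1
  replace hx := interior_subset hx
  rw [(d x hx).deriv]
  refine div_nonpos_of_nonpos_of_nonneg ?_ (sq_nonneg _)
  simp only [Pi.mul_apply, Pi.neg_apply]
  obtain ⟨s, hs⟩ : ∃ s, s = (2 * x - κ) * T := ⟨_, rfl⟩
  have s0 : 0 < s := hs ▸ mul_pos (by linarith [hx.1]) T0
  have e := Real.sum_le_exp_of_nonneg s0.le 4
  simp only [Finset.sum_range_succ, Finset.range_zero, Finset.sum_empty, Nat.factorial] at e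
  norm_num at e
  have x1 : s ≤ x * T := hs ▸ mul_le_mul_of_nonneg_right (by linarith [hx.2]) T0.le
  have x2 : 3 / 2 ≤ x * T := hT.trans (mul_le_mul_of_nonneg_right hx.1 T0.le)
  have k0 : 0 ≤ Real.exp s - 1 - s := by linarith [Real.add_one_le_exp s]
  have k : s * (Real.exp s - 1) ≤ 2 * (x * T) * (Real.exp s - 1 - s) := by
    rcases le_total s (3 / 2) with c | c
    · refine le_trans ?_ (mul_le_mul_of_nonneg_right (by linarith : 3 ≤ 2 * (x * T)) k0)
      nlinarith [mul_le_mul_of_nonneg_left e (by linarith : 0 ≤ 3 - s), mul_nonneg (sq_nonneg s)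
        (by nlinarith : 0 ≤ 3 - s ^ 2)]
    · refine le_trans ?_ (mul_le_mul_of_nonneg_right (by linarith : 2 * s ≤ 2 * (x * T)) k0)
      have : 2 * s ≤ Real.exp s - 1 := by nlinarith [mul_nonneg s0.le (by nlinarith : 0 ≤ s ^ 2 - 9 / 4)]
      nlinarith
  rw [← hs, Real.exp_neg]
  have E := Real.exp_pos s
  refine le_of_mul_le_mul_left (a := Real.exp s * T) ?_ (by positivity)
  have := mul_nonneg (mul_nonneg p0 T0.le) k0
  refine le_of_eq_of_le (b := s * (Real.exp s - 1) - 2 * (x + p) * T * (Real.exp s - 1 - s)) ?_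
    (by linarith)
  generalize Real.exp s = e at *
  rw [hs]; field_simp; ring

variable {E : Type} [NormedAddCommGroup E] [InnerProductSpace ℂ E] [CompleteSpace E]
  {A : E →L[ℂ] E} [NormedSpace ℝ E] [IsScalarTower ℝ ℂ E]

theorem Ule {κ : ℝ} (hκ : ∀ z, (inner ℂ z (A z)).re ≤ κ * ‖z‖ ^ 2) {y : E} (hy : ‖y‖ = 1) {t : ℝ}
    (ht : 0 ≤ t) : ‖U (A†) t y‖ ≤ Real.exp (κ * t) := by
  have d := fun t => (((hasDerivAt_id' t).const_mul (-(2 * κ))).exp).mul (d2 (dU (A†) y t))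
  have := antitone_of_deriv_nonpos (fun t => (d t).differentiableAt) (fun t => by
    have := mul_le_mul_of_nonneg_left (hκ (U (A†) t y)) (Real.exp_pos (-(2 * κ) * t)).le
    rw [(d t).deriv, ContinuousLinearMap.adjoint_inner_right, ← inner_conj_symm, conj_re]
    linarith) ht
  simp only [Pi.mul_apply, U0, hy, mul_zero, Real.exp_zero] at this
  refine le_of_sq_le_sq ?_ (Real.exp_pos _).le
  refine le_of_mul_le_mul_left (this.trans_eq ?_) (Real.exp_pos (-(2 * κ) * t))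
  rw [← Real.exp_nat_mul, ← Real.exp_add]; ring_nf; simp

theorem core2 {κ r R Γ δ T : ℝ} (κ0 : 0 < κ) (a0 : ∀ z, 0 ≤ (inner ℂ z (A z)).re)
    (hκ : ∀ z, (inner ℂ z (A z)).re ≤ κ * ‖z‖ ^ 2) (r0 : 0 < r) (R0 : 0 < R) (hR : R ^ 2 = 1 + r ^ 2)
    (Γ0 : 0 ≤ Γ) (δ0 : 0 < δ) (hT : 0 ≤ T) {Φ : ℝ × E → ℝ} (cΦ : ContDiff ℝ 1 Φ)
    (hΦ : ∀ t ∈ Icc 0 T, ∀ (v : ℝ → E) w, HasDerivAt v w t → ∃ (d : ℝ) (W : E),
      HasDerivAt (fun t => Φ (t, v t)) (d + 2 * (inner ℂ W w).re) t ∧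
      ‖W‖ ≤ Γ * Real.exp (κ * t) * ‖v t‖ ∧ d - 2 * (inner ℂ W (A (v t))).re + Real.exp (κ * t) *
        (R * ((inner ℂ (v t) (A (v t))).re + r ^ 2 * κ * ‖v t‖ ^ 2) / r + δ * ‖v t‖ ^ 2) ≤ 0) :
    ∃ ε > 0, ∀ (h : ℝ → E → E) (v : ℝ → E) (y : E), ‖y‖ = 1 → AbsolutelyContinuousOnInterval v 0 T →
      (∀ t ∈ Icc 0 T, v t ∈ ball (0 : E) 1) →
      (∀ᵐ t, t ∈ Icc 0 T → HasDerivAt v (-h t (v t)) t ∧ NA A (h t)) → ‖v 0‖ ≤ ε →
      (inner ℂ y (U A T (v T))).re + Φ (T, v T) ≤ (inner ℂ y (v 0)).re + Φ (0, v 0) := by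
  obtain ⟨K, hK⟩ : ∃ K, K = R * (κ + r ^ 2 * κ) / r + 16 * κ := ⟨_, rfl⟩
  have K0 : 0 < K := by rw [hK]; positivity
  refine ⟨min (1 / 4) (δ / (16 * κ + 2 * Γ * K)), by positivity, fun h v y hy ac vb ode hε => ?_⟩
  have dec : ∀ t ∈ Icc 0 T, ‖v t‖ ≤ ‖v 0‖ := fun t ht => by
    have := anti (g := fun p : ℝ × E => ‖p.2‖ ^ 2) (contDiff_snd.norm_sq ℂ) ht.1
      (ac.mono (by rw [uIcc_of_le ht.1, uIcc_of_le hT]; exact Icc_subset_Icc_right ht.2)) (by
        filter_upwards [ode] with s hs hm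
        have hm' := Icc_subset_Icc_right ht.2 hm
        refine ⟨_, ?_, d2 (hs hm').1⟩
        have := (hs hm').2.2.2.2 _ (vb s hm')
        rw [inner_neg_right, neg_re]; linarith)
    exact le_of_sq_le_sq this (norm_nonneg _)
  have e : U (A†) T = (U A T)† := by
    rw [U, U, ← ContinuousLinearMap.star_eq_adjoint, ← ContinuousLinearMap.star_eq_adjoint,
      NormedSpace.star_exp]; simp
  have := anti (g := fun p : ℝ × E => reCLM (inner ℂ (U (A†) p.1 y) p.2) + Φ p)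
    ((reCLM.contDiff.comp (((cU _ y).comp contDiff_fst).inner ℂ contDiff_snd)).add cΦ) hT ac ?_
  · rwa [U0, e, ContinuousLinearMap.adjoint_inner_left] at this
  filter_upwards [ode] with t ht hm
  obtain ⟨hd, hn⟩ := ht hm
  obtain ⟨d, W, dΦ, nW, hW⟩ := hΦ t hm v _ hd
  refine ⟨_, ?_, (reCLM.hasFDerivAt.comp_hasDerivAt t ((dU (A†) y t).inner ℂ hd)).add dΦ⟩
  have n4 := (dec t hm).trans (hε.trans (min_le_left _ _))
  have nδ := (le_div_iff₀ (by positivity)).1 ((dec t hm).trans (hε.trans (min_le_right _ _)))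
  have p := est hn κ0.le hκ a0 r0 R0 hR n4 ((norm_neg _).trans_le (Ule hκ hy hm.1))
  have q := est hn κ0.le hκ a0 r0 R0 hR n4 ((norm_neg W).trans_le nW)
  have m2 := hκ (v t)
  simp only [reCLM_apply, ContinuousLinearMap.adjoint_inner_left, inner_neg_left, inner_neg_right,
    inner_sub_right, add_re, neg_re, sub_re] at p q ⊢
  have E1 := Real.exp_pos (κ * t)
  have n0 := norm_nonneg (v t)
  generalize (inner ℂ (v t) (A (v t))).re = α at *
  generalize Real.exp (κ * t) = e1 at *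
  generalize ‖v t‖ = n at *
  have q2 : R * (α + r ^ 2 * κ * n ^ 2) / r + 16 * κ * n ^ 3 ≤ K * n ^ 2 := by
    have : n ^ 3 ≤ n ^ 2 := pow_le_pow_of_le_one n0 (by linarith) (by norm_num)
    refine le_trans (b := R * (κ * n ^ 2 + r ^ 2 * κ * n ^ 2) / r + 16 * κ * n ^ 2) (by gcongr) ?_
    rw [hK]; exact le_of_eq (by ring)
  linear_combination p + 2 * q + hW + mul_le_mul_of_nonneg_left nδ (mul_nonneg E1.le (sq_nonneg n)) +
    2 * mul_le_mul_of_nonneg_left q2 (mul_nonneg (mul_nonneg Γ0 E1.le) n0)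

theorem fint {n : ℕ} (b : OrthonormalBasis (Fin n) ℂ E) {l : Fin n → ℂ} (hA : ∀ k, A (b k) = l k • b k)
    {μ κ r R δ T B : ℝ} (μ0 : 0 < μ) (mk : μ ≤ κ) (hi : ∀ k, (l k).re ≤ κ) (hj : ∀ k, μ ≤ (l k).re)
    (h2 : κ < 2 * μ) (r0 : 0 < r) (R0 : 0 < R) (hR : R ^ 2 = 1 + r ^ 2) (δ0 : 0 < δ) (hT : 0 ≤ T)
    (hB : ∀ k, R / r * (((l k).re + r ^ 2 * κ) * (1 - Real.exp (-((2 * (l k).re - κ) * T))) /
      (2 * (l k).re - κ)) ≤ B) :
    ∃ ε > 0, ∀ (h : ℝ → E → E) (v : ℝ → E) (y : E), ‖y‖ = 1 → AbsolutelyContinuousOnInterval v 0 T →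
      (∀ t ∈ Icc 0 T, v t ∈ ball (0 : E) 1) →
      (∀ᵐ t, t ∈ Icc 0 T → HasDerivAt v (-h t (v t)) t ∧ NA A (h t)) → ‖v 0‖ ≤ ε →
      (inner ℂ y (U A T (v T))).re ≤ (inner ℂ y (v 0)).re + (B + δ) * ‖v 0‖ ^ 2 := by
  have h1 : ∀ k z, inner ℂ (b k) (A z) = l k * inner ℂ (b k) z := fun k z => by
    have : ((innerSL ℂ (b k)).comp A : E →ₗ[ℂ] ℂ) = (l k • innerSL ℂ (b k) : E →L[ℂ] ℂ) :=
      b.toBasis.ext fun m => by
        rcases eq_or_ne k m with rfl | km
        · simp [hA, inner_smul_right]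
        · simp [hA, inner_smul_right, b.inner_eq_zero km]
    exact LinearMap.congr_fun this z
  have h0 : ∀ (c : Fin n → ℝ) z w W, (∀ k, inner ℂ (b k) W = c k * inner ℂ (b k) z) → (inner ℂ W w).re =
      ∑ k, c k * (inner ℂ (inner ℂ (b k) z) (inner ℂ (b k) w)).re := fun c z w W hW => by
    rw [← b.sum_inner_mul_inner, re_sum]
    refine Finset.sum_congr rfl fun k _ => ?_
    rw [← inner_conj_symm W, hW, ← re_ofReal_mul]; simp; ring
  have h4 : ∀ k z, (inner ℂ (inner ℂ (b k) z) (inner ℂ (b k) (A z))).re =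
      (l k).re * ‖inner ℂ (b k) z‖ ^ 2 := fun k z => by
    rw [h1, ← smul_eq_mul, inner_smul_right, inner_self_eq_norm_sq_to_K]
    simp [← ofReal_pow]
  have h5 : ∀ z, (inner ℂ z (A z)).re = ∑ k, (l k).re * ‖inner ℂ (b k) z‖ ^ 2 := fun z => by
    simpa only [h4, Pi.one_apply, one_mul] using h0 1 z (A z) z (by simp)
  have h3 := fun z => (b.sum_sq_norm_inner_right z).symm
  have σ : ∀ k, 0 < 2 * (l k).re - κ := fun k => by linarith [hj k]
  have σ0 := sub_pos.2 h2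
  have κ0 : 0 < κ := by linarith
  obtain ⟨γ, hγ⟩ : ∃ γ : Fin n → ℝ, γ = fun k =>
    (R / r * ((l k).re + r ^ 2 * κ) + δ * (2 * μ - κ)) / (2 * (l k).re - κ) := ⟨_, rfl⟩
  obtain ⟨c, hc⟩ : ∃ c : Fin n → ℝ → ℝ, c = fun k t => γ k * (Real.exp (κ * t) -
    Real.exp (-((2 * (l k).re - κ) * T)) * Real.exp (2 * (l k).re * t)) := ⟨_, rfl⟩
  have γ0 : ∀ k, 0 ≤ γ k := fun k => by
    have := σ k; have := μ0.trans_le (hj k); rw [hγ]; positivity
  obtain ⟨ε, ε0, H⟩ := core2 (A := A) (Γ := ∑ k, γ k) (δ := δ * (2 * μ - κ))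
    (Φ := fun p => ∑ k, c k p.1 * ‖inner ℂ (b k) p.2‖ ^ 2) κ0
    (fun z => h5 z ▸ Finset.sum_nonneg fun k _ => mul_nonneg (μ0.le.trans (hj k)) (sq_nonneg _))
    (fun z => by rw [h5, h3, Finset.mul_sum]; gcongr; exact hi _) r0 R0 hR
    (Finset.sum_nonneg fun k _ => γ0 k) (by positivity) hT
    (ContDiff.sum fun k _ => ContDiff.mul (by rw [hc]; fun_prop)
      ((contDiff_const.inner ℂ contDiff_snd).norm_sq ℂ)) fun t ht v w hd => by
    have dc : ∀ k, HasDerivAt (c k) (2 * (l k).re * c k t - Real.exp (κ * t) *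
        (R / r * ((l k).re + r ^ 2 * κ) + δ * (2 * μ - κ))) t := fun k => by
      rw [hc]
      refine ((((hasDerivAt_id' t).const_mul κ).exp.sub ((((hasDerivAt_id' t).const_mul
        (2 * (l k).re)).exp).const_mul _)).const_mul _).congr_deriv ?_
      have : (l k).re * 2 - κ ≠ 0 := by linarith [σ k]
      simp only [hγ]; field_simp; ring
    have hW : ∀ k, inner ℂ (b k) (∑ m, (c m t * inner ℂ (b m) (v t)) • b m) =
        c k t * inner ℂ (b k) (v t) := fun k => b.orthonormal.inner_right_fintype _ k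
    refine ⟨∑ k, (2 * (l k).re * c k t - Real.exp (κ * t) * (R / r * ((l k).re + r ^ 2 * κ) +
      δ * (2 * μ - κ))) * ‖inner ℂ (b k) (v t)‖ ^ 2, ∑ m, (c m t * inner ℂ (b m) (v t)) • b m,
      (HasDerivAt.fun_sum fun k _ => (dc k).mul (d2 ((hasDerivAt_const t (b k)).inner ℂ
      hd))).congr_deriv ?_, ?_, le_of_eq ?_⟩
    · rw [Finset.sum_add_distrib, h0 _ _ _ _ hW, Finset.mul_sum]
      congr 1
      exact Finset.sum_congr rfl fun k _ => by simp only [inner_zero_left, add_zero]; ring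
    · refine le_of_sq_le_sq ?_ (by have := Finset.sum_nonneg (s := Finset.univ) fun k _ => γ0 k; positivity)
      rw [h3, mul_pow, h3 (v t), Finset.mul_sum]
      refine Finset.sum_le_sum fun k _ => ?_
      have l1 : Real.exp (-((2 * (l k).re - κ) * T)) * Real.exp (2 * (l k).re * t) ≤
          Real.exp (κ * t) := by
        rw [← Real.exp_add, Real.exp_le_exp]; nlinarith [σ k, ht.2]
      rw [hW, norm_mul, mul_pow, norm_real, Real.norm_of_nonneg (hc ▸ mul_nonneg (γ0 k) (sub_nonneg.2 l1))]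
      gcongr
      · exact hc ▸ mul_nonneg (γ0 k) (sub_nonneg.2 l1)
      · rw [hc]
        exact mul_le_mul (Finset.single_le_sum (fun k _ => γ0 k) (Finset.mem_univ k))
          (sub_le_self _ (by positivity)) (sub_nonneg.2 l1) (Finset.sum_nonneg fun k _ => γ0 k)
    · rw [h0 _ _ _ _ hW, h5, h3 (v t)]
      simp only [h4, Finset.mul_sum, Finset.sum_div, ← Finset.sum_add_distrib, ← Finset.sum_sub_distrib]
      exact Finset.sum_eq_zero fun k _ => by ring
  refine ⟨ε, ε0, fun h v y hy ac vb ode hε => ?_⟩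
  have := H h v y hy ac vb ode hε
  have c0 : ∀ k, c k T = 0 := fun k => by
    simp only [hc, ← Real.exp_add]; ring_nf
  simp only [c0, zero_mul, Finset.sum_const_zero, add_zero] at this
  refine this.trans (add_le_add le_rfl ?_)
  rw [h3 (v 0), Finset.mul_sum]
  refine Finset.sum_le_sum fun k _ => mul_le_mul_of_nonneg_right ?_ (sq_nonneg _)
  have : δ * ((2 * μ - κ) / (2 * (l k).re - κ) * (1 - Real.exp (-((2 * (l k).re - κ) * T)))) ≤ δ * 1 := by
    gcongr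
    exact mul_le_one₀ ((div_le_one (σ k)).2 (by linarith [hj k])) (by
      simpa using mul_nonneg (σ k).le hT) (sub_le_self _ (by positivity))
  simp only [hc, hγ, mul_zero, Real.exp_zero, mul_one] at this ⊢
  exact le_of_eq_of_le (by ring) (add_le_add (hB k) this)

end Pool.Agent.H.MP_c027d2_an
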